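import Pool.Agent.Q253.HV.Stm

set_option autoImplicit false

/-! Job HV-CO of project HV (helper253). -/

namespace Pool.Agent.Q195.HV

open Pool.Agent.Q253.HV ArithmeticFunction

open Classical in
lemma card_cond {q : ℕ} [NeZero q] {e : ℕ} (he : e ∣ q) :
    (((Finset.univ : Finset (DirichletCharacter ℂ q)).filter (fun χ => χ.conductor ∣ e)).card : ℝ) ≤
      (Nat.totient e : ℝ) := by
  have : NeZero e := ⟨fun h => NeZero.ne q (Nat.eq_zero_of_zero_dvd (h ▸ he))⟩
  have h1 : (Finset.univ : Finset (DirichletCharacter ℂ q)).filter (fun χ => χ.conductor ∣ e) ⊆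
      (Finset.univ : Finset (DirichletCharacter ℂ e)).image (DirichletCharacter.changeLevel he) := by
    intro χ hχ
    rw [Finset.mem_filter] at hχ
    have h2 : e ∈ χ.conductorSet :=
      (DirichletCharacter.mem_conductorSet_iff_conductor_dvd χ he).mpr hχ.2
    rw [DirichletCharacter.mem_conductorSet_iff] at h2
    obtain ⟨h3, χ0, h4⟩ := h2
    exact Finset.mem_image.mpr ⟨χ0, Finset.mem_univ _, h4.symm⟩
  have h2 := (Finset.card_le_card h1).trans Finset.card_image_le
  have h3 : (Finset.univ : Finset (DirichletCharacter ℂ e)).card = Nat.totient e := by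
    rw [Finset.card_univ, ← Nat.card_eq_fintype_card]
    exact DirichletCharacter.card_eq_totient_of_hasEnoughRootsOfUnity ℂ e
  rw [h3] at h2
  exact_mod_cast h2

open Classical in
lemma sum_cond {q : ℕ} [NeZero q] :
    ∑ χ : DirichletCharacter ℂ q, (Real.log q - Real.log (χ.conductor : ℝ)) ≤
      ∑ d ∈ q.divisors, vonMangoldt d * (Nat.totient (q / d) : ℝ) := by
  have hq : 0 < q := Nat.pos_of_ne_zero (NeZero.ne q)
  have h1 : ∀ χ : DirichletCharacter ℂ q, Real.log q - Real.log (χ.conductor : ℝ) ≤
      ∑ d ∈ q.divisors, if χ.conductor ∣ q / d then vonMangoldt d else 0 := by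
    intro χ
    obtain ⟨k, hk⟩ := χ.conductor_dvd_level
    have hc : 0 < χ.conductor := Nat.pos_of_ne_zero χ.conductor_ne_zero
    have hk0 : 0 < k := by
      rcases Nat.eq_zero_or_pos k with h | h
      · rw [h, mul_zero] at hk; omega
      · exact h
    have e1 : Real.log q - Real.log (χ.conductor : ℝ) = Real.log k := by
      have : (q : ℝ) = (χ.conductor : ℝ) * (k : ℝ) := by exact_mod_cast hk
      rw [this, Real.log_mul (by positivity) (by positivity)]
      ring
    rw [e1, ← vonMangoldt_sum, ← Finset.sum_filter]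
    apply Finset.sum_le_sum_of_subset_of_nonneg
    · intro d hd
      rw [Nat.mem_divisors] at hd
      obtain ⟨⟨j, hj⟩, _⟩ := hd
      have hd0 : 0 < d := by
        rcases Nat.eq_zero_or_pos d with h | h
        · rw [h, zero_mul] at hj; omega
        · exact h
      have hqd : q = d * (χ.conductor * j) := by
        have h5 : χ.conductor * k = d * (χ.conductor * j) := by rw [hj]; ring
        exact hk.trans h5
      rw [Finset.mem_filter, Nat.mem_divisors]
      refine ⟨⟨⟨_, hqd⟩, hq.ne'⟩, ?_⟩
      have : q / d = χ.conductor * j := Nat.div_eq_of_eq_mul_right hd0 hqd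
      rw [this]
      exact dvd_mul_right _ _
    · intro d _ _
      exact vonMangoldt_nonneg
  refine (Finset.sum_le_sum fun χ _ => h1 χ).trans ?_
  rw [Finset.sum_comm]
  apply Finset.sum_le_sum
  intro d hd
  rw [← Finset.sum_filter, Finset.sum_const, nsmul_eq_mul, mul_comm]
  apply mul_le_mul_of_nonneg_left _ vonMangoldt_nonneg
  exact card_cond (Nat.div_dvd_of_dvd (Nat.dvd_of_mem_divisors hd))

lemma tot_pp {d : ℕ} (h : vonMangoldt d ≠ 0) : (d : ℝ) ≤ 2 * (Nat.totient d : ℝ) := by
  rw [vonMangoldt_ne_zero_iff, isPrimePow_nat_iff] at h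
  obtain ⟨p, k, hp, hk, rfl⟩ := h
  obtain ⟨j, rfl⟩ : ∃ j, k = j + 1 := ⟨k - 1, by omega⟩
  rw [Nat.totient_prime_pow_succ hp]
  have h2 : p ≤ 2 * (p - 1) := by have := hp.two_le; omega
  have h3 : p ^ (j + 1) ≤ 2 * (p ^ j * (p - 1)) := by
    rw [pow_succ]
    calc p ^ j * p ≤ p ^ j * (2 * (p - 1)) := Nat.mul_le_mul_left _ h2
      _ = 2 * (p ^ j * (p - 1)) := by ring
  exact_mod_cast h3

theorem t_CO : S_CO := by
  intro ε hε
  obtain ⟨y, hy⟩ := exists_nat_gt (4 / ε)
  set C : ℝ := ∑ d ∈ Finset.range (y + 1), vonMangoldt d with hC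
  have hC0 : 0 ≤ C := Finset.sum_nonneg fun _ _ => vonMangoldt_nonneg
  have hy0 : (0 : ℝ) < y := lt_trans (by positivity) hy
  obtain ⟨q0, hq0⟩ := exists_nat_gt (Real.exp (2 * C / ε))
  refine ⟨max q0 1, fun q _ hq => ?_⟩
  have hq1 : 1 ≤ q := le_trans (le_max_right _ _) hq
  have hq2 : q0 ≤ q := le_trans (le_max_left _ _) hq
  have hlog : 2 * C / ε ≤ Real.log q := by
    rw [Real.le_log_iff_exp_le (by exact_mod_cast hq1)]
    exact hq0.le.trans (by exact_mod_cast hq2)
  have hC2 : C ≤ ε / 2 * Real.log q := by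
    have : 2 * C / ε * (ε / 2) ≤ Real.log q * (ε / 2) :=
      mul_le_mul_of_nonneg_right hlog (by positivity)
    have e : 2 * C / ε * (ε / 2) = C := by field_simp
    linarith
  have hφ : (0 : ℝ) < Nat.totient q := by exact_mod_cast Nat.totient_pos.mpr hq1
  refine sum_cond.trans ?_
  have hterm : ∀ d ∈ q.divisors, vonMangoldt d * (Nat.totient (q / d) : ℝ) ≤
      (Nat.totient q : ℝ) * (vonMangoldt d / (Nat.totient d : ℝ)) := by
    intro d hd
    have hdq := Nat.dvd_of_mem_divisors hd
    have hd0 : 0 < d := Nat.pos_of_mem_divisors hd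
    have hφd : (0 : ℝ) < Nat.totient d := by exact_mod_cast Nat.totient_pos.mpr hd0
    have h1 : Nat.totient d * Nat.totient (q / d) ≤ Nat.totient q := by
      have := Nat.totient_super_multiplicative d (q / d)
      rwa [Nat.mul_div_cancel' hdq] at this
    have h2 : (Nat.totient d : ℝ) * Nat.totient (q / d) ≤ Nat.totient q := by exact_mod_cast h1
    have h3 : (Nat.totient (q / d) : ℝ) ≤ Nat.totient q / Nat.totient d := by
      rw [le_div_iff₀ hφd]; linarith
    calc vonMangoldt d * (Nat.totient (q / d) : ℝ)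
        ≤ vonMangoldt d * ((Nat.totient q : ℝ) / Nat.totient d) :=
          mul_le_mul_of_nonneg_left h3 vonMangoldt_nonneg
      _ = (Nat.totient q : ℝ) * (vonMangoldt d / (Nat.totient d : ℝ)) := by ring
  refine (Finset.sum_le_sum hterm).trans ?_
  rw [← Finset.mul_sum]
  have hmain : ∑ d ∈ q.divisors, vonMangoldt d / (Nat.totient d : ℝ) ≤ ε * Real.log q := by
    rw [← Finset.sum_filter_add_sum_filter_not q.divisors (fun d => d ≤ y)]
    have h1 : ∑ d ∈ q.divisors.filter (fun d => d ≤ y), vonMangoldt d / (Nat.totient d : ℝ) ≤ C := by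
      calc ∑ d ∈ q.divisors.filter (fun d => d ≤ y), vonMangoldt d / (Nat.totient d : ℝ)
          ≤ ∑ d ∈ q.divisors.filter (fun d => d ≤ y), vonMangoldt d := by
            apply Finset.sum_le_sum
            intro d hd
            rw [Finset.mem_filter] at hd
            have hd0 : 0 < d := Nat.pos_of_mem_divisors hd.1
            apply div_le_self vonMangoldt_nonneg
            exact_mod_cast Nat.totient_pos.mpr hd0
        _ ≤ C := by
            rw [hC]
            apply Finset.sum_le_sum_of_subset_of_nonneg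
            · intro d hd
              rw [Finset.mem_filter] at hd
              rw [Finset.mem_range]
              omega
            · intro _ _ _; exact vonMangoldt_nonneg
    have h2 : ∑ d ∈ q.divisors.filter (fun d => ¬ d ≤ y), vonMangoldt d / (Nat.totient d : ℝ) ≤
        ε / 2 * Real.log q := by
      calc ∑ d ∈ q.divisors.filter (fun d => ¬ d ≤ y), vonMangoldt d / (Nat.totient d : ℝ)
          ≤ ∑ d ∈ q.divisors.filter (fun d => ¬ d ≤ y), ε / 2 * vonMangoldt d := by
            apply Finset.sum_le_sum
            intro d hd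
            rw [Finset.mem_filter] at hd
            have hd0 : 0 < d := Nat.pos_of_mem_divisors hd.1
            have hφd : (0 : ℝ) < Nat.totient d := by exact_mod_cast Nat.totient_pos.mpr hd0
            by_cases h0 : vonMangoldt d = 0
            · rw [h0]; simp
            · have h3 := tot_pp h0
              have h4 : (y : ℝ) ≤ d := by exact_mod_cast (by omega : y ≤ d)
              rw [div_le_iff₀ hφd]
              have h5 : 1 ≤ ε / 2 * (Nat.totient d : ℝ) := by
                have h6 : 4 / ε ≤ 2 * (Nat.totient d : ℝ) := by linarith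
                have h7 := mul_le_mul_of_nonneg_left h6 (by positivity : (0 : ℝ) ≤ ε / 4)
                have e : ε / 4 * (4 / ε) = 1 := by field_simp
                linarith
              have h8 : 0 ≤ vonMangoldt d := vonMangoldt_nonneg
              nlinarith
        _ ≤ ∑ d ∈ q.divisors, ε / 2 * vonMangoldt d := by
            apply Finset.sum_le_sum_of_subset_of_nonneg (Finset.filter_subset _ _)
            intro d _ _
            have : 0 ≤ vonMangoldt d := vonMangoldt_nonneg
            positivity
        _ = ε / 2 * Real.log q := by rw [← Finset.mul_sum, vonMangoldt_sum]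
    linarith
  calc (Nat.totient q : ℝ) * ∑ d ∈ q.divisors, vonMangoldt d / (Nat.totient d : ℝ)
      ≤ (Nat.totient q : ℝ) * (ε * Real.log q) := mul_le_mul_of_nonneg_left hmain hφ.le
    _ = ε * (Nat.totient q : ℝ) * Real.log q := by ring

end Pool.Agent.Q195.HV
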