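import Pool.Agent.Q253.HV.Stm

set_option autoImplicit false

/-! Job HV-EQ of project HV (helper253). -/

namespace Pool.Agent.Q195.HV

open Pool.Agent.Q253.HV

lemma sum_log_primeFactors {q : ℕ} (hq : 0 < q) :
    ∑ p ∈ q.primeFactors, Real.log p ≤ Real.log q := by
  have h1 : (∏ p ∈ q.primeFactors, p) ∣ q := Nat.prod_primeFactors_dvd q
  have h2 : ∏ p ∈ q.primeFactors, p ≤ q := Nat.le_of_dvd hq h1
  have h3 : ∑ p ∈ q.primeFactors, Real.log p = Real.log ((∏ p ∈ q.primeFactors, p : ℕ) : ℝ) := by
    push_cast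
    rw [Real.log_prod]
    intro p hp
    have := (Nat.prime_of_mem_primeFactors hp).pos
    positivity
  rw [h3]
  apply Real.log_le_log
  · have : 0 < ∏ p ∈ q.primeFactors, p :=
      Finset.prod_pos fun p hp => (Nat.prime_of_mem_primeFactors hp).pos
    exact_mod_cast this
  · exact_mod_cast h2

theorem t_EQ : S_EQ := by
  intro ε hε
  -- `y` with `1/(√y - 1) ≤ ε/2`
  obtain ⟨y, hy⟩ := exists_nat_gt ((1 + 2 / ε) ^ 2)
  have hy0 : (0 : ℝ) < (1 + 2 / ε) := by positivity
  have hsy : 1 + 2 / ε < Real.sqrt y := Real.lt_sqrt_of_sq_lt hy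
  set C : ℝ := ∑ p ∈ Finset.range (y + 1), |Real.log p / (Real.sqrt p - 1)| with hC
  have hC0 : 0 ≤ C := Finset.sum_nonneg fun _ _ => abs_nonneg _
  obtain ⟨q0, hq0⟩ := exists_nat_gt (Real.exp (2 * C / ε))
  refine ⟨max q0 1, fun q hq => ?_⟩
  have hq1 : 1 ≤ q := le_trans (le_max_right _ _) hq
  have hq2 : q0 ≤ q := le_trans (le_max_left _ _) hq
  have hlog : 2 * C / ε ≤ Real.log q := by
    rw [Real.le_log_iff_exp_le (by exact_mod_cast hq1)]
    exact hq0.le.trans (by exact_mod_cast hq2)
  have hC2 : C ≤ ε / 2 * Real.log q := by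
    have : 2 * C / ε * (ε / 2) ≤ Real.log q * (ε / 2) :=
      mul_le_mul_of_nonneg_right hlog (by positivity)
    have e : 2 * C / ε * (ε / 2) = C := by field_simp
    linarith
  unfold Pool.Agent.Q253.HV.eq
  rw [← Finset.sum_filter_add_sum_filter_not q.primeFactors (fun p => p ≤ y)]
  have h1 : ∑ p ∈ q.primeFactors.filter (fun p => p ≤ y), Real.log p / (Real.sqrt p - 1) ≤ C := by
    rw [hC]
    refine (Finset.sum_le_sum fun p _ => le_abs_self _).trans ?_
    apply Finset.sum_le_sum_of_subset_of_nonneg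
    · intro p hp
      rw [Finset.mem_filter] at hp
      rw [Finset.mem_range]
      omega
    · intro _ _ _; exact abs_nonneg _
  have h2 : ∑ p ∈ q.primeFactors.filter (fun p => ¬ p ≤ y), Real.log p / (Real.sqrt p - 1) ≤
      ε / 2 * Real.log q := by
    calc ∑ p ∈ q.primeFactors.filter (fun p => ¬ p ≤ y), Real.log p / (Real.sqrt p - 1)
        ≤ ∑ p ∈ q.primeFactors.filter (fun p => ¬ p ≤ y), ε / 2 * Real.log p := by
          apply Finset.sum_le_sum
          intro p hp
          rw [Finset.mem_filter] at hp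
          have hpy : (y : ℝ) ≤ p := by exact_mod_cast (by omega : y ≤ p)
          have hp1 : (1 : ℝ) ≤ p := by
            exact_mod_cast (Nat.prime_of_mem_primeFactors hp.1).one_lt.le
          have hs : Real.sqrt y ≤ Real.sqrt p := Real.sqrt_le_sqrt hpy
          have h3 : 2 / ε < Real.sqrt p - 1 := by linarith
          have h4 : 0 < 2 / ε := by positivity
          rw [div_le_iff₀ (by linarith)]
          have h5 : 0 ≤ Real.log p := Real.log_nonneg hp1
          have h6 : 1 ≤ ε / 2 * (Real.sqrt p - 1) := by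
            have := mul_le_mul_of_nonneg_left h3.le (by positivity : (0 : ℝ) ≤ ε / 2)
            have e : ε / 2 * (2 / ε) = 1 := by field_simp
            linarith
          nlinarith
      _ ≤ ∑ p ∈ q.primeFactors, ε / 2 * Real.log p := by
          apply Finset.sum_le_sum_of_subset_of_nonneg (Finset.filter_subset _ _)
          intro p hp _
          have hp1 : (1 : ℝ) ≤ p := by
            exact_mod_cast (Nat.prime_of_mem_primeFactors hp).one_lt.le
          have h5 : 0 ≤ Real.log p := Real.log_nonneg hp1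
          positivity
      _ = ε / 2 * ∑ p ∈ q.primeFactors, Real.log p := by rw [Finset.mul_sum]
      _ ≤ ε / 2 * Real.log q :=
          mul_le_mul_of_nonneg_left (sum_log_primeFactors hq1) (by positivity)
  linarith

end Pool.Agent.Q195.HV
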