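import Pool.Agent.Q253.HV.Stm

set_option autoImplicit false

/-! Job HV-OD of project HV (helper253). -/

namespace Pool.Agent.Q195.HV

open Pool.Agent.Q253.HV

lemma red_iff {q : ℕ} [NeZero q] {n : ℕ} : Nat.Coprime (n % q) q ↔ IsUnit (n : ZMod q) := by
  rw [ZMod.isUnit_iff_coprime]
  unfold Nat.Coprime
  rw [← Nat.gcd_rec, Nat.gcd_comm]

lemma conj_char {q : ℕ} [NeZero q] (χ : DirichletCharacter ℂ q) {a : ZMod q} (ha : IsUnit a) :
    (starRingEnd ℂ) (χ a) = χ a⁻¹ := by
  have h1 : χ a * χ a⁻¹ = 1 := by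
    rw [← map_mul, ZMod.mul_inv_of_unit a ha, map_one]
  have h2 : ‖χ a‖ = 1 := by
    obtain ⟨u, rfl⟩ := ha
    exact DirichletCharacter.unit_norm_eq_one χ u
  have h3 : χ a * (starRingEnd ℂ) (χ a) = 1 := by
    rw [Complex.mul_conj, Complex.normSq_eq_norm_sq, h2]
    simp
  have h4 : χ a ≠ 0 := by
    intro h
    rw [h, norm_zero] at h2
    exact zero_ne_one h2
  exact mul_left_cancel₀ h4 (h3.trans h1.symm)

lemma parseval {q : ℕ} [NeZero q] (b : ℕ → ℝ) :
    ∑ χ : DirichletCharacter ℂ q,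
      ‖∑ a ∈ (Finset.range q).filter (fun a => Nat.Coprime a q), (b a : ℂ) * χ (a : ZMod q)‖ ^ 2 =
    (Nat.totient q : ℝ) * ∑ a ∈ (Finset.range q).filter (fun a => Nat.Coprime a q), b a ^ 2 := by
  set A := (Finset.range q).filter (fun a => Nat.Coprime a q) with hA
  have hu : ∀ a ∈ A, IsUnit (a : ZMod q) := by
    intro a ha
    rw [hA, Finset.mem_filter] at ha
    exact (ZMod.isUnit_iff_coprime a q).mpr ha.2
  have hinj : ∀ a ∈ A, ∀ a' ∈ A, ((a' : ZMod q) = (a : ZMod q) ↔ a' = a) := by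
    intro a ha a' ha'
    rw [hA, Finset.mem_filter, Finset.mem_range] at ha ha'
    rw [ZMod.natCast_eq_natCast_iff', Nat.mod_eq_of_lt ha.1, Nat.mod_eq_of_lt ha'.1]
  have key : ((∑ χ : DirichletCharacter ℂ q, ‖∑ a ∈ A, (b a : ℂ) * χ (a : ZMod q)‖ ^ 2 : ℝ) : ℂ) =
      (((Nat.totient q : ℝ) * ∑ a ∈ A, b a ^ 2 : ℝ) : ℂ) := by
    have e1 : ∀ χ : DirichletCharacter ℂ q,
        ((‖∑ a ∈ A, (b a : ℂ) * χ (a : ZMod q)‖ ^ 2 : ℝ) : ℂ) =
        ∑ a ∈ A, ∑ a' ∈ A, (b a : ℂ) * (b a' : ℂ) * (χ ((a' : ZMod q)⁻¹) * χ (a : ZMod q)) := by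
      intro χ
      rw [← Complex.normSq_eq_norm_sq, ← Complex.mul_conj, map_sum, Finset.sum_mul_sum]
      apply Finset.sum_congr rfl
      intro a _
      apply Finset.sum_congr rfl
      intro a' ha'
      rw [map_mul, Complex.conj_ofReal, conj_char χ (hu a' ha')]
      ring
    rw [Complex.ofReal_sum]
    simp_rw [e1]
    rw [Finset.sum_comm]
    have e2 : ∀ a ∈ A, ∑ χ : DirichletCharacter ℂ q, ∑ a' ∈ A,
        (b a : ℂ) * (b a' : ℂ) * (χ ((a' : ZMod q)⁻¹) * χ (a : ZMod q)) =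
        (Nat.totient q : ℂ) * (b a : ℂ) ^ 2 := by
      intro a ha
      rw [Finset.sum_comm]
      have e3 : ∀ a' ∈ A, ∑ χ : DirichletCharacter ℂ q,
          (b a : ℂ) * (b a' : ℂ) * (χ ((a' : ZMod q)⁻¹) * χ (a : ZMod q)) =
          if a' = a then (Nat.totient q : ℂ) * (b a : ℂ) ^ 2 else 0 := by
        intro a' ha'
        rw [← Finset.mul_sum, DirichletCharacter.sum_char_inv_mul_char_eq ℂ (hu a' ha')]
        by_cases h : a' = a
        · rw [if_pos h, if_pos (by rw [h]), h]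
          ring
        · rw [if_neg h, if_neg (fun hc => h ((hinj a ha a' ha').mp hc)), mul_zero]
      rw [Finset.sum_congr rfl e3, Finset.sum_ite_eq' A a, if_pos ha]
    rw [Finset.sum_congr rfl e2, ← Finset.mul_sum]
    push_cast
    rfl
  exact_mod_cast key

lemma sum_char {q : ℕ} [NeZero q] (χ : DirichletCharacter ℂ q) :
    ∑ a ∈ (Finset.range q).filter (fun a => Nat.Coprime a q), χ (a : ZMod q) =
      if χ = 1 then (Nat.totient q : ℂ) else 0 := by
  have h1 : ∑ a ∈ (Finset.range q).filter (fun a => Nat.Coprime a q), χ (a : ZMod q) =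
      ∑ a ∈ Finset.range q, χ (a : ZMod q) := by
    apply Finset.sum_subset (Finset.filter_subset _ _)
    intro a ha hn
    rw [Finset.mem_filter] at hn
    apply MulChar.map_nonunit
    rw [ZMod.isUnit_iff_coprime]
    exact fun h => hn ⟨ha, h⟩
  have h2 : ∑ a ∈ Finset.range q, χ (a : ZMod q) = ∑ x : ZMod q, χ x := by
    symm
    apply Finset.sum_bij (fun (x : ZMod q) _ => x.val)
    · intro x _
      exact Finset.mem_range.mpr (ZMod.val_lt x)
    · intro x _ y _ h
      exact ZMod.val_injective q h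
    · intro a ha
      exact ⟨(a : ZMod q), Finset.mem_univ _, ZMod.val_cast_of_lt (Finset.mem_range.mp ha)⟩
    · intro x _
      rw [ZMod.natCast_zmod_val]
  rw [h1, h2]
  by_cases h : χ = 1
  · rw [if_pos h, h]
    rw [MulChar.sum_one_eq_card_units, ZMod.card_units_eq_totient]
  · rw [if_neg h]
    exact MulChar.sum_eq_zero_of_ne_one h

lemma psi_split {q : ℕ} [NeZero q] (χ : DirichletCharacter ℂ q) (x : ℝ) :
    ∑ a ∈ (Finset.range q).filter (fun a => Nat.Coprime a q), (psiAP x q a : ℂ) * χ (a : ZMod q) =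
      psiC χ x := by
  unfold psiAP psiC
  have e1 : ∀ a ∈ (Finset.range q).filter (fun a => Nat.Coprime a q),
      ((∑ n ∈ (Finset.Icc 1 ⌊x⌋₊).filter (fun n => n % q = a), ArithmeticFunction.vonMangoldt n : ℝ) : ℂ)
        * χ (a : ZMod q) = ∑ n ∈ (Finset.Icc 1 ⌊x⌋₊).filter (fun n => n % q = a),
          ((ArithmeticFunction.vonMangoldt n : ℝ) : ℂ) * χ (n : ZMod q) := by
    intro a _
    rw [Complex.ofReal_sum, Finset.sum_mul]
    apply Finset.sum_congr rfl
    intro n hn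
    rw [Finset.mem_filter] at hn
    have : (n : ZMod q) = (a : ZMod q) := by
      rw [← hn.2, ZMod.natCast_mod]
    rw [this]
  rw [Finset.sum_congr rfl e1]
  have hS : ((Finset.range q).filter (fun a => Nat.Coprime a q)) ⊆ Finset.range q :=
    Finset.filter_subset _ _
  rw [Finset.sum_subset hS]
  · rw [Finset.sum_fiberwise_of_maps_to (g := fun n => n % q)]
    intro n _
    exact Finset.mem_range.mpr (Nat.mod_lt _ (Nat.pos_of_ne_zero (NeZero.ne q)))
  · intro a ha hn
    apply Finset.sum_eq_zero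
    intro n hn2
    rw [Finset.mem_filter] at hn2
    have : ¬ IsUnit (n : ZMod q) := by
      rw [← red_iff, hn2.2]
      intro hc
      exact hn (Finset.mem_filter.mpr ⟨ha, hc⟩)
    rw [MulChar.map_nonunit χ this, mul_zero]

theorem t_OD : S_OD := by
  intro q _ x hx
  have hφ : (0 : ℝ) < Nat.totient q := by
    exact_mod_cast Nat.totient_pos.mpr (Nat.pos_of_ne_zero (NeZero.ne q))
  have h := parseval (q := q) (fun a => psiAP x q a - x / (Nat.totient q : ℝ))
  have e : ∀ χ : DirichletCharacter ℂ q,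
      ∑ a ∈ (Finset.range q).filter (fun a => Nat.Coprime a q),
        ((psiAP x q a - x / (Nat.totient q : ℝ) : ℝ) : ℂ) * χ (a : ZMod q) =
      psiC χ x - (if χ = 1 then (x : ℂ) else 0) := by
    intro χ
    have e1 : ∀ a ∈ (Finset.range q).filter (fun a => Nat.Coprime a q),
        ((psiAP x q a - x / (Nat.totient q : ℝ) : ℝ) : ℂ) * χ (a : ZMod q) =
        (psiAP x q a : ℂ) * χ (a : ZMod q) - (x : ℂ) / (Nat.totient q : ℂ) * χ (a : ZMod q) := by
      intro a _
      push_cast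
      ring
    rw [Finset.sum_congr rfl e1, Finset.sum_sub_distrib, ← Finset.mul_sum, psi_split, sum_char]
    by_cases hc : χ = 1
    · rw [if_pos hc, if_pos hc]
      have : (Nat.totient q : ℂ) ≠ 0 := by exact_mod_cast hφ.ne'
      rw [div_mul_cancel₀ _ this]
    · rw [if_neg hc, if_neg hc, mul_zero]
  simp_rw [e] at h
  rw [h, ← mul_assoc, one_div, inv_mul_cancel₀ hφ.ne', one_mul]
  rfl

end Pool.Agent.Q195.HV
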