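import Pool.Agent.Q253.HV.Stm
import Pool.Agent.Cov.PNT

set_option autoImplicit false

/-! Job HV-TR of project HV (helper253). -/

namespace Pool.Agent.Q195.HV

open Pool.Agent.Q253.HV ArithmeticFunction MeasureTheory Filter Topology

/-- `∏ p/(p-1) ≤ |S| + 1` over a finite set of integers `≥ 2` -/
lemma prod_le_card (n : ℕ) : ∀ S : Finset ℕ, S.card = n → (∀ p ∈ S, 2 ≤ p) →
    ∏ p ∈ S, ((p : ℝ) / ((p : ℝ) - 1)) ≤ n + 1 := by
  induction n with
  | zero =>
    intro S hS _
    rw [Finset.card_eq_zero] at hS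
    rw [hS]; simp
  | succ n ih =>
    intro S hS h2
    have hne : S.Nonempty := by
      rw [← Finset.card_pos]; omega
    set m := S.max' hne with hm
    have hmS : m ∈ S := Finset.max'_mem _ _
    have hsub : S ⊆ Finset.Icc 2 m := by
      intro p hp
      exact Finset.mem_Icc.mpr ⟨h2 p hp, Finset.le_max' _ _ hp⟩
    have hcard := Finset.card_le_card hsub
    rw [Nat.card_Icc, hS] at hcard
    have hm2 : n + 2 ≤ m := by omega
    have hm2' : (n : ℝ) + 2 ≤ m := by exact_mod_cast hm2
    rw [← Finset.mul_prod_erase S _ hmS]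
    have h3 := ih (S.erase m) (by rw [Finset.card_erase_of_mem hmS, hS]; rfl)
      (fun p hp => h2 p (Finset.mem_of_mem_erase hp))
    have hn0 : (0 : ℝ) ≤ n := Nat.cast_nonneg n
    have h4 : (m : ℝ) / ((m : ℝ) - 1) ≤ (n + 2) / (n + 1) := by
      rw [div_le_div_iff₀ (by linarith) (by linarith)]
      nlinarith
    have h5 : 0 ≤ ∏ p ∈ S.erase m, ((p : ℝ) / ((p : ℝ) - 1)) := by
      apply Finset.prod_nonneg
      intro p hp
      have := h2 p (Finset.mem_of_mem_erase hp)
      have h6 : (2 : ℝ) ≤ p := by exact_mod_cast this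
      apply div_nonneg <;> linarith
    calc (m : ℝ) / ((m : ℝ) - 1) * ∏ p ∈ S.erase m, ((p : ℝ) / ((p : ℝ) - 1))
        ≤ (n + 2) / (n + 1) * (n + 1) := mul_le_mul h4 h3 h5 (by positivity)
      _ = ((n + 1 : ℕ) : ℝ) + 1 := by push_cast; field_simp; ring

lemma q_div_tot {q : ℕ} (hq : 0 < q) :
    (q : ℝ) / Nat.totient q ≤ Real.log q / Real.log 2 + 1 := by
  have hφ : (0 : ℝ) < Nat.totient q := by exact_mod_cast Nat.totient_pos.mpr hq
  have h1 := Nat.totient_mul_prod_primeFactors q
  have h2 : ∀ p ∈ q.primeFactors, 2 ≤ p := fun p hp => (Nat.prime_of_mem_primeFactors hp).two_le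
  have e : (q : ℝ) / Nat.totient q = ∏ p ∈ q.primeFactors, ((p : ℝ) / ((p : ℝ) - 1)) := by
    rw [Finset.prod_div_distrib]
    have h3 : (Nat.totient q : ℝ) * ∏ p ∈ q.primeFactors, (p : ℝ) =
        q * ∏ p ∈ q.primeFactors, ((p : ℝ) - 1) := by
      have h4 : ((Nat.totient q * ∏ p ∈ q.primeFactors, p : ℕ) : ℝ) =
        ((q * ∏ p ∈ q.primeFactors, (p - 1) : ℕ) : ℝ) := by rw [h1]
      push_cast at h4
      rw [h4]
      congr 1
      apply Finset.prod_congr rfl
      intro p hp
      rw [Nat.cast_sub (by have := h2 p hp; omega)]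
      simp
    have h5 : 0 < ∏ p ∈ q.primeFactors, ((p : ℝ) - 1) := by
      apply Finset.prod_pos
      intro p hp
      have h6 : (2 : ℝ) ≤ p := by exact_mod_cast h2 p hp
      linarith
    rw [div_eq_div_iff hφ.ne' h5.ne']
    linarith
  rw [e]
  refine (prod_le_card q.primeFactors.card q.primeFactors rfl h2).trans ?_
  have h7 : 2 ^ q.primeFactors.card ≤ q := by
    have h8 : 2 ^ q.primeFactors.card ≤ ∏ p ∈ q.primeFactors, p :=
      Finset.pow_card_le_prod _ _ _ h2
    exact h8.trans (Nat.le_of_dvd hq (Nat.prod_primeFactors_dvd q))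
  have h9 : (q.primeFactors.card : ℝ) * Real.log 2 ≤ Real.log q := by
    rw [← Real.log_pow]
    apply Real.log_le_log (by positivity)
    exact_mod_cast h7
  have hl2 : 0 < Real.log 2 := Real.log_pos (by norm_num)
  have h10 : (q.primeFactors.card : ℝ) ≤ Real.log q / Real.log 2 := by
    rw [le_div_iff₀ hl2]; exact h9
  linarith

/-- classes have at most one element in the range `x ≤ q` -/
lemma psiAP_small {q : ℕ} (hq : 2 ≤ q) {x : ℝ} (hx0 : 0 ≤ x) (hxq : x ≤ q) {a : ℕ} (ha : a < q)
    (hc : Nat.Coprime a q) :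
    psiAP x q a = if a ∈ Finset.Ioc 0 ⌊x⌋₊ then vonMangoldt a else 0 := by
  have ha0 : 0 < a := by
    rcases Nat.eq_zero_or_pos a with h | h
    · rw [h] at hc
      rw [Nat.coprime_zero_left] at hc
      omega
    · exact h
  have hfl : ⌊x⌋₊ ≤ q := by
    have := Nat.floor_le_floor hxq
    rwa [Nat.floor_natCast] at this
  have hset : (Finset.Icc 1 ⌊x⌋₊).filter (fun n => n % q = a) =
      if a ∈ Finset.Ioc 0 ⌊x⌋₊ then {a} else ∅ := by
    ext n
    rw [Finset.mem_filter, Finset.mem_Icc]
    constructor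
    · rintro ⟨⟨h1, h2⟩, h3⟩
      have h4 : n ≠ q := by
        rintro rfl
        rw [Nat.mod_self] at h3
        omega
      have h5 : n < q := by omega
      rw [Nat.mod_eq_of_lt h5] at h3
      subst h3
      rw [if_pos (Finset.mem_Ioc.mpr ⟨by omega, h2⟩)]
      exact Finset.mem_singleton_self _
    · intro h
      by_cases h6 : a ∈ Finset.Ioc 0 ⌊x⌋₊
      · rw [if_pos h6, Finset.mem_singleton] at h
        subst h
        rw [Finset.mem_Ioc] at h6
        exact ⟨⟨h6.1, h6.2⟩, Nat.mod_eq_of_lt ha⟩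
      · rw [if_neg h6] at h
        simp at h
  unfold psiAP
  rw [hset]
  by_cases h6 : a ∈ Finset.Ioc 0 ⌊x⌋₊
  · rw [if_pos h6, if_pos h6, Finset.sum_singleton]
  · rw [if_neg h6, if_neg h6, Finset.sum_empty]

lemma G_small {q : ℕ} (hq : 2 ≤ q) {x : ℝ} (hx1 : 1 ≤ x) (hxq : x ≤ q) :
    G x q ≤ Real.log x * Chebyshev.psi x + x ^ 2 / Nat.totient q := by
  have hφ : (0 : ℝ) < Nat.totient q := by exact_mod_cast Nat.totient_pos.mpr (by omega : 0 < q)
  have hx0 : 0 ≤ x := by linarith
  have hlx : 0 ≤ Real.log x := Real.log_nonneg hx1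
  set A := (Finset.range q).filter (fun a => Nat.Coprime a q) with hA
  have hAc : (A.card : ℝ) = Nat.totient q := by
    rw [hA, Nat.totient_eq_card_coprime]
    congr 2
    apply Finset.filter_congr
    intro a _
    rw [Nat.coprime_comm]
  have h1 : ∀ a ∈ A, (psiAP x q a - x / (Nat.totient q : ℝ)) ^ 2 ≤
      (if a ∈ Finset.Ioc 0 ⌊x⌋₊ then Real.log x * vonMangoldt a else 0) +
        (x / (Nat.totient q : ℝ)) ^ 2 := by
    intro a ha
    rw [hA, Finset.mem_filter, Finset.mem_range] at ha
    rw [psiAP_small hq hx0 hxq ha.1 ha.2]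
    have hxφ : 0 ≤ x / (Nat.totient q : ℝ) := by positivity
    by_cases h6 : a ∈ Finset.Ioc 0 ⌊x⌋₊
    · rw [if_pos h6, if_pos h6]
      rw [Finset.mem_Ioc] at h6
      have h7 : (a : ℝ) ≤ x := (Nat.le_floor_iff hx0).mp h6.2
      have ha0 : (0 : ℝ) < a := by exact_mod_cast h6.1
      have h8 : vonMangoldt a ≤ Real.log x :=
        vonMangoldt_le_log.trans (Real.log_le_log ha0 h7)
      have h9 : 0 ≤ vonMangoldt a := vonMangoldt_nonneg
      nlinarith [mul_nonneg h9 hxφ, mul_le_mul_of_nonneg_right h8 h9]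
    · rw [if_neg h6, if_neg h6]
      nlinarith
  unfold G
  refine (Finset.sum_le_sum h1).trans ?_
  rw [Finset.sum_add_distrib, Finset.sum_const, nsmul_eq_mul, hAc]
  have h2 : ∑ a ∈ A, (if a ∈ Finset.Ioc 0 ⌊x⌋₊ then Real.log x * vonMangoldt a else 0) ≤
      Real.log x * Chebyshev.psi x := by
    rw [← Finset.sum_filter, ← Finset.mul_sum]
    apply mul_le_mul_of_nonneg_left _ hlx
    unfold Chebyshev.psi
    apply Finset.sum_le_sum_of_subset_of_nonneg
    · intro a ha
      exact (Finset.mem_filter.mp ha).2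
    · intro _ _ _
      exact vonMangoldt_nonneg
  have h3 : (Nat.totient q : ℝ) * (x / (Nat.totient q : ℝ)) ^ 2 = x ^ 2 / Nat.totient q := by
    field_simp
  linarith

lemma psi_bd (ε : ℝ) (hε : 0 < ε) : ∃ T0 : ℝ, 0 ≤ T0 ∧ ∀ t : ℝ, 0 ≤ t →
    t * Chebyshev.psi (Real.exp t) * Real.exp (-t) ≤ (1 + ε) * t + T0 := by
  have h := Pool.Agent.Cov.PNT.psi_div_tendsto
  have h1 : ∀ᶠ x : ℝ in atTop, Chebyshev.psi x / x < 1 + ε :=
    h.eventually (gt_mem_nhds (by linarith))
  obtain ⟨X0, hX0⟩ := eventually_atTop.mp h1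
  set t0 : ℝ := Real.log (max X0 1) with ht0
  have hm : (0 : ℝ) < max X0 1 := lt_of_lt_of_le one_pos (le_max_right _ _)
  have ht0n : 0 ≤ t0 := Real.log_nonneg (le_max_right _ _)
  have hl4 : 0 ≤ Real.log 4 := Real.log_nonneg (by norm_num)
  refine ⟨(Real.log 4 + 4) * t0, by positivity, ?_⟩
  intro t ht
  have he : 0 < Real.exp t := Real.exp_pos t
  have e : t * Chebyshev.psi (Real.exp t) * Real.exp (-t) =
      t * (Chebyshev.psi (Real.exp t) / Real.exp t) := by
    rw [Real.exp_neg]; ring
  rw [e]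
  rcases le_or_gt t0 t with h2 | h2
  · have h3 : X0 ≤ Real.exp t := by
      have h4 : max X0 1 ≤ Real.exp t := by
        rw [← Real.exp_log hm]
        exact Real.exp_le_exp.mpr h2
      exact (le_max_left _ _).trans h4
    have h5 := hX0 _ h3
    have h6 := mul_le_mul_of_nonneg_left h5.le ht
    have h7 : 0 ≤ (Real.log 4 + 4) * t0 := by positivity
    linarith
  · have h3 : Chebyshev.psi (Real.exp t) / Real.exp t ≤ Real.log 4 + 4 := by
      rw [div_le_iff₀ he]
      exact Chebyshev.psi_le_const_mul_self he.le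
    have h4 := mul_le_mul_of_nonneg_left h3 ht
    have h5 : t * (Real.log 4 + 4) ≤ (Real.log 4 + 4) * t0 := by nlinarith
    have h6 : 0 ≤ (1 + ε) * t := by positivity
    linarith

lemma int_scale {L c : ℝ} (hL : 0 < L) :
    ∫ t in (0 : ℝ)..L, t * Real.exp (-(2 * c * t / L)) =
      L ^ 2 * ∫ α in (0 : ℝ)..1, α * Real.exp (-(2 * c * α)) := by
  have h := intervalIntegral.integral_comp_mul_left (a := 0) (b := 1)
    (fun t : ℝ => t * Real.exp (-(2 * c * t / L))) hL.ne'
  rw [mul_zero, mul_one, smul_eq_mul] at h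
  have h2 : ∀ α : ℝ, (L * α) * Real.exp (-(2 * c * (L * α) / L)) =
      L * (α * Real.exp (-(2 * c * α))) := by
    intro α
    have : 2 * c * (L * α) / L = 2 * c * α := by field_simp
    rw [this]; ring
  simp_rw [h2] at h
  rw [intervalIntegral.integral_const_mul] at h
  have h3 : ∫ t in (0 : ℝ)..L, t * Real.exp (-(2 * c * t / L)) =
      L * (L * ∫ α in (0 : ℝ)..1, α * Real.exp (-(2 * c * α))) := by
    rw [h, ← mul_assoc, mul_inv_cancel₀ hL.ne', one_mul]
  rw [h3]; ring

theorem t_TR : S_TR := by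
  intro ε hε
  obtain ⟨T0, hT0, hpsi⟩ := psi_bd ε hε
  have hl2 : 0 < Real.log 2 := Real.log_pos (by norm_num)
  -- threshold
  set D : ℝ := T0 + 1 + 1 / Real.log 2 with hD
  have hD0 : 0 < D := by positivity
  obtain ⟨q0, hq0⟩ := exists_nat_gt (Real.exp (max 1 (2 * D / ε)))
  refine ⟨max q0 2, fun q hq c hc => ?_⟩
  have hq2 : 2 ≤ q := le_trans (le_max_right _ _) hq
  have hq3 : q0 ≤ q := le_trans (le_max_left _ _) hq
  have hqpos : (0 : ℝ) < q := by exact_mod_cast (by omega : 0 < q)
  have hlog : max 1 (2 * D / ε) ≤ Real.log q := by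
    rw [Real.le_log_iff_exp_le hqpos]
    exact hq0.le.trans (by exact_mod_cast hq3)
  set L := Real.log q with hL
  have hL1 : 1 ≤ L := (le_max_left _ _).trans hlog
  have hL2 : 2 * D / ε ≤ L := (le_max_right _ _).trans hlog
  have hL0 : 0 < L := by linarith
  have hexpL : Real.exp L = q := Real.exp_log hqpos
  have hφ : (0 : ℝ) < Nat.totient q := by exact_mod_cast Nat.totient_pos.mpr (by omega : 0 < q)
  set I := ∫ α in (0 : ℝ)..1, α * Real.exp (-(2 * c * α)) with hI
  have hI0 : 0 ≤ I := by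
    rw [hI]
    apply intervalIntegral.integral_nonneg (by norm_num)
    intro α hα
    have := Real.exp_pos (-(2 * c * α))
    exact mul_nonneg hα.1 this.le
  have hI1 : I ≤ 1 / 2 := by
    have h1 : I ≤ ∫ α in (0 : ℝ)..1, α := by
      rw [hI]
      apply intervalIntegral.integral_mono_on (by norm_num)
      · apply Continuous.intervalIntegrable; fun_prop
      · apply Continuous.intervalIntegrable; fun_prop
      · intro α hα
        have h2 : Real.exp (-(2 * c * α)) ≤ 1 := by
          rw [Real.exp_le_one_iff]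
          have := mul_nonneg hc hα.1
          linarith
        exact mul_le_of_le_one_right hα.1 h2
    rw [integral_id] at h1
    norm_num at h1
    linarith
  have hrhs : 0 ≤ (I + ε) * L ^ 2 := by positivity
  by_cases hint : IntervalIntegrable (fun t => G (Real.exp t) q * Real.exp (-t) *
      Real.exp (-(2 * c * t / L))) volume 0 L
  swap
  · rw [intervalIntegral.integral_undef hint]
    exact hrhs
  have hpt : ∀ t ∈ Set.Icc (0 : ℝ) L, G (Real.exp t) q * Real.exp (-t) *
      Real.exp (-(2 * c * t / L)) ≤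
      (1 + ε) * (t * Real.exp (-(2 * c * t / L))) + (T0 + Real.exp t / Nat.totient q) := by
    intro t ht
    have hx1 : 1 ≤ Real.exp t := Real.one_le_exp ht.1
    have hxq : Real.exp t ≤ q := by rw [← hexpL]; exact Real.exp_le_exp.mpr ht.2
    have h1 := G_small hq2 hx1 hxq
    rw [Real.log_exp] at h1
    have hE : 0 < Real.exp (-(2 * c * t / L)) := Real.exp_pos _
    have hE1 : Real.exp (-(2 * c * t / L)) ≤ 1 := by
      rw [Real.exp_le_one_iff]
      have : 0 ≤ 2 * c * t / L := by have := ht.1; positivity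
      linarith
    have h2 : G (Real.exp t) q * Real.exp (-t) ≤
        (1 + ε) * t + T0 + Real.exp t / Nat.totient q := by
      have h3 := mul_le_mul_of_nonneg_right h1 (Real.exp_pos (-t)).le
      have h4 : (t * Chebyshev.psi (Real.exp t) + Real.exp t ^ 2 / Nat.totient q) * Real.exp (-t) =
          t * Chebyshev.psi (Real.exp t) * Real.exp (-t) + Real.exp t / Nat.totient q := by
        have h5 : Real.exp t * Real.exp (-t) = 1 := by rw [← Real.exp_add]; simp
        have h6 : Real.exp t ^ 2 / Nat.totient q * Real.exp (-t) =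
            Real.exp t * (Real.exp t * Real.exp (-t)) / Nat.totient q := by ring
        rw [add_mul, h6, h5, mul_one]
      rw [h4] at h3
      have h7 := hpsi t ht.1
      linarith
    have h8 := mul_le_mul_of_nonneg_right h2 hE.le
    have h9 : 0 ≤ T0 + Real.exp t / Nat.totient q := by
      have := Real.exp_pos t
      positivity
    have h10 := mul_le_mul_of_nonneg_left hE1 h9
    calc G (Real.exp t) q * Real.exp (-t) * Real.exp (-(2 * c * t / L))
        ≤ ((1 + ε) * t + T0 + Real.exp t / Nat.totient q) * Real.exp (-(2 * c * t / L)) := h8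
      _ = (1 + ε) * (t * Real.exp (-(2 * c * t / L))) +
          (T0 + Real.exp t / Nat.totient q) * Real.exp (-(2 * c * t / L)) := by ring
      _ ≤ _ := by linarith
  have hmono := intervalIntegral.integral_mono_on hL0.le hint (by
    apply Continuous.intervalIntegrable
    fun_prop) hpt
  refine hmono.trans ?_
  rw [intervalIntegral.integral_add (by apply Continuous.intervalIntegrable; fun_prop)
      (by apply Continuous.intervalIntegrable; fun_prop),
    intervalIntegral.integral_add (by apply Continuous.intervalIntegrable; fun_prop)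
      (by apply Continuous.intervalIntegrable; fun_prop),
    intervalIntegral.integral_const_mul, int_scale hL0, intervalIntegral.integral_const,
    intervalIntegral.integral_div, integral_exp, hexpL, smul_eq_mul, sub_zero, Real.exp_zero]
  have h11 := q_div_tot (by omega : 0 < q)
  rw [← hL] at h11
  have h12 : ((q : ℝ) - 1) / Nat.totient q ≤ L / Real.log 2 + 1 := by
    refine le_trans ?_ h11
    apply div_le_div_of_nonneg_right _ hφ.le
    linarith
  have h13 : L / Real.log 2 = L * (1 / Real.log 2) := by ring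
  have h14 : L * T0 + (L / Real.log 2 + 1) ≤ L * D := by
    rw [hD, h13]
    nlinarith
  have h15 : L * D ≤ ε / 2 * L ^ 2 := by
    have h16 : D ≤ ε / 2 * L := by
      have h17 := mul_le_mul_of_nonneg_left hL2 (by positivity : (0 : ℝ) ≤ ε / 2)
      have e : ε / 2 * (2 * D / ε) = D := by field_simp
      linarith
    calc L * D ≤ L * (ε / 2 * L) := mul_le_mul_of_nonneg_left h16 hL0.le
      _ = ε / 2 * L ^ 2 := by ring
  have h18 : ε * (L ^ 2 * I) ≤ ε / 2 * L ^ 2 := by
    have : L ^ 2 * I ≤ L ^ 2 * (1 / 2) := mul_le_mul_of_nonneg_left hI1 (by positivity)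
    nlinarith
  rw [← hI]
  nlinarith

end Pool.Agent.Q195.HV
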